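import Mathlib
import Pool.Agent.Helper10.PalFamily

/-! Palindromes with boundedly many prime factors close to any given palindrome. -/

namespace Pool.Agent.Results.MP_540de1_nt.AlmostPrimeNear

open Pool.Agent.Helper10 Finset

/-- `N` is a decimal palindrome with exactly `l` digits. -/
def IsPal (l N : ℕ) : Prop :=
  (Nat.digits 10 N).length = l ∧ (Nat.digits 10 N).reverse = Nat.digits 10 N

/-- The decimal digit of `N` at position `i` (position `0` is the units digit). -/
def digit (N i : ℕ) : ℕ := N / 10 ^ i % 10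

/-- **Almost-prime palindromes near every palindrome.** For every `g ≥ 1` and all large `n`: every
palindrome `P` with `2 * n + 1` digits and coprime to `10` can be changed into a palindrome `P'`
with `2 * n + 1` digits and at most `1500 * g` prime factors (counted with multiplicity) by changing
digits by at most one, and only digits whose distance to the middle digit is a positive multiple of
`g` smaller than `n`. -/
theorem result (g : ℕ) (hg : 0 < g) : ∃ n₀ : ℕ, ∀ n : ℕ, n₀ ≤ n → ∀ P : ℕ,
    IsPal (2 * n + 1) P → P.Coprime 10 →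
    ∃ P' : ℕ, IsPal (2 * n + 1) P' ∧
      (∀ i, digit P' i ≤ digit P i + 1 ∧ digit P i ≤ digit P' i + 1) ∧
      (∀ i, digit P' i ≠ digit P i →
        ∃ t, 1 ≤ t ∧ g * t < n ∧ (i = n + g * t ∨ i + g * t = n)) ∧
      P'.primeFactorsList.length ≤ 1500 * g := by
  obtain ⟨T0, hT0⟩ := core_lower g hg
  refine ⟨g * (T0 + 1) + 1 + 750 * g + 225 * g * (1500 * g + 1), ?_⟩
  rintro n hn P ⟨hlen, hrev⟩ hcop
  set T := (n - 1) / g with hT
  have hn0 : 0 < n := by
    have : 0 < 1 := one_pos
    omega
  have hTn : g * T ≤ n - 1 := Nat.mul_div_le _ _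
  have hT0T : T0 ≤ T := by
    rw [hT, Nat.le_div_iff_mul_le hg]
    have e1 : g * (T0 + 1) = T0 * g + g := by ring
    omega
  have hTlow : n < g * T + g + 1 := by
    have h1 := Nat.lt_div_mul_add (a := n - 1) hg
    rw [← hT] at h1
    have e1 : T * g = g * T := by ring
    omega
  obtain ⟨ε, hε1, hε2⟩ := hT0 T hT0T (10 ^ (n - g * T)) (N0 g n P)
    (fun q hq => Nat.Coprime.pow_right _ hq)
  rw [Finset.mem_powerset] at hε1
  have hε : ∀ t ∈ ε, 1 ≤ t ∧ g * t < n := free_le g n T hn0 hT ε hε1
  rw [MM_family g n T (by omega) ε hε1, ← mem_eq g n P ε hε] at hε2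
  have hlen' := mem_len g n P hg hlen hrev hcop ε hε
  have hrev' := mem_rev g n P hg hlen hrev hcop ε hε
  have hcop' := mem_coprime g n P hg hlen hrev hcop ε hε
  refine ⟨mem g n P ε, ⟨hlen', hrev'⟩, ?_, ?_, ?_⟩
  · intro i
    change dig (mem g n P ε) i ≤ dig P i + 1 ∧ dig P i ≤ dig (mem g n P ε) i + 1
    rcases Nat.lt_or_ge i (2 * n + 1) with hi | hi
    · rw [mem_dig g n P hg hlen hrev hcop ε hε i hi]
      have h1 := inc_le_one g n hg ε hε i
      have h2 := dig_lt P i
      unfold f0
      split_ifs <;> omega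
    · rw [dig_of_ge _ _ i hlen' hi, dig_of_ge _ _ i hlen hi]
      omega
  · intro i hne
    change dig (mem g n P ε) i ≠ dig P i at hne
    rcases Nat.lt_or_ge i (2 * n + 1) with hi | hi
    · rw [mem_dig g n P hg hlen hrev hcop ε hε i hi] at hne
      by_cases hfree : FreePos g n i
      · exact hfree
      · exfalso
        apply hne
        have h3 : inc g n ε i = 0 := by
          by_contra h
          exact hfree (inc_free g n ε hε i h)
        unfold f0
        rw [if_neg hfree, h3, add_zero]
    · exfalso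
      apply hne
      rw [dig_of_ge _ _ i hlen' hi, dig_of_ge _ _ i hlen hi]
  · have hne : mem g n P ε ≠ 0 := by
      intro h
      rw [h] at hlen'
      simp at hlen'
    have h1 : (2 ^ (T / 225)) ^ (mem g n P ε).primeFactorsList.length ≤ mem g n P ε := by
      apply pow_length_le _ _ hne
      intro p hp hpd
      by_contra hlt
      push Not at hlt
      exact hε2 p hp (Nat.Coprime.coprime_dvd_left hpd hcop') hlt hpd
    have h2 : mem g n P ε < 10 ^ (2 * n + 1) := by
      rw [← Nat.digits_length_le_iff (by norm_num), hlen']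
    set m := (mem g n P ε).primeFactorsList.length with hm
    by_contra hcon
    push Not at hcon
    set w := T / 225 with hw
    have h3 : 2 ^ (w * (1500 * g + 1)) < 10 ^ (2 * n + 1) := by
      calc 2 ^ (w * (1500 * g + 1)) ≤ 2 ^ (w * m) :=
            Nat.pow_le_pow_right (by norm_num) (Nat.mul_le_mul_left _ hcon)
        _ = (2 ^ w) ^ m := by rw [pow_mul]
        _ < 10 ^ (2 * n + 1) := lt_of_le_of_lt h1 h2
    have h4 : 2 ^ (3 * (w * (1500 * g + 1))) < 2 ^ (10 * (2 * n + 1)) := by
      calc 2 ^ (3 * (w * (1500 * g + 1))) = (2 ^ (w * (1500 * g + 1))) ^ 3 := by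
            rw [← pow_mul, mul_comm]
        _ < (10 ^ (2 * n + 1)) ^ 3 := Nat.pow_lt_pow_left h3 (by norm_num)
        _ = (10 ^ 3) ^ (2 * n + 1) := by rw [← pow_mul, ← pow_mul, mul_comm]
        _ ≤ (2 ^ 10) ^ (2 * n + 1) := Nat.pow_le_pow_left (by norm_num) _
        _ = 2 ^ (10 * (2 * n + 1)) := by rw [← pow_mul]
    have h5 := (Nat.pow_lt_pow_iff_right (by norm_num : 1 < 2)).mp h4
    have h6 : n ≤ 225 * (g * w) + 225 * g := by
      have h7 : T < 225 * w + 225 := by omega
      have h8 : g * (T + 1) ≤ g * (225 * w + 225) := Nat.mul_le_mul_left _ h7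
      have e1 : g * (T + 1) = g * T + g := by ring
      have e2 : g * (225 * w + 225) = 225 * (g * w) + 225 * g := by ring
      omega
    -- 225 g * h5 contradicts n large
    have h9 : 225 * g * (3 * (w * (1500 * g + 1))) < 225 * g * (10 * (2 * n + 1)) :=
      Nat.mul_lt_mul_of_pos_left h5 (by positivity)
    have h10 : 3 * (1500 * g + 1) * n ≤ 3 * (1500 * g + 1) * (225 * (g * w) + 225 * g) :=
      Nat.mul_le_mul_left _ h6
    have e3 : 3 * (1500 * g + 1) * (225 * (g * w) + 225 * g) =
        225 * g * (3 * (w * (1500 * g + 1))) + 3 * (225 * g * (1500 * g + 1)) := by ring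
    have e4 : 225 * g * (10 * (2 * n + 1)) = 4500 * (g * n) + 2250 * g := by ring
    have e5 : 3 * (1500 * g + 1) * n = 4500 * (g * n) + 3 * n := by ring
    have h11 : 750 * g + 225 * g * (1500 * g + 1) ≤ n := by omega
    omega

end Pool.Agent.Results.MP_540de1_nt.AlmostPrimeNear
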