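import Mathlib
import Pool.Agent.Helper10.P4.Fin4

/-! Decimal palindromes with at most four prime factors. -/

namespace Pool.Agent.Results.MP_540de1_nt.FourPrimeFactors

open Pool.Agent.Helper10 Pool.Agent.Helper10.P5 Pool.Agent.Helper10.P4 Finset

/-- `N` is a decimal palindrome with exactly `l` digits. -/
def IsPal (l N : ℕ) : Prop :=
  (Nat.digits 10 N).length = l ∧ (Nat.digits 10 N).reverse = Nat.digits 10 N

/-- **Decimal palindromes with at most four prime factors.** For all large `n` there are at least
`(1 / 200) * 10 ^ n / n` decimal palindromes `N` with `2 * n + 1` digits that have at most four prime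
factors, counted with multiplicity, each of them larger than `N ^ (1 / 15)`. -/
theorem result : ∃ n0 : ℕ, ∀ n : ℕ, n0 ≤ n →
    1 / 200 * ((10 : ℝ) ^ n / n) ≤
      ({N : ℕ | IsPal (2 * n + 1) N ∧ N.primeFactorsList.length ≤ 4 ∧
        ∀ p : ℕ, p.Prime → p ∣ N → N < p ^ 15}.ncard : ℝ) := by
  classical
  obtain ⟨n0, h0⟩ := main4
  refine ⟨n0, ?_⟩
  intro n hn
  obtain ⟨m, hm, hmn, hmn2, hcount⟩ := h0 n hn
  refine hcount.trans ?_
  have hn1 : 1 ≤ n := by omega
  set S : Set ℕ := {N : ℕ | IsPal (2 * n + 1) N ∧ N.primeFactorsList.length ≤ 4 ∧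
        ∀ p : ℕ, p.Prime → p ∣ N → N < p ^ 15} with hS
  have hfin : S.Finite := by
    apply Set.Finite.subset (Set.finite_Iio (10 ^ (2 * n + 1)))
    rintro N ⟨⟨hlen, _⟩, _⟩
    rw [Set.mem_Iio, ← Nat.digits_length_le_iff (by norm_num : 1 < 10), hlen]
  have hsub : (((good4 m n).image (Npal n) : Finset ℕ) : Set ℕ) ⊆ S := by
    intro N hN
    rw [Finset.mem_coe, Finset.mem_image] at hN
    obtain ⟨f, hf, rfl⟩ := hN
    unfold good4 at hf
    rw [Finset.mem_filter] at hf
    have hfK : f ∈ KK (n - 1) 10 := by
      have := hf.1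
      unfold sift at this
      exact (Finset.mem_filter.mp this).1
    refine ⟨Npal_digits n hn1 f hfK, hf.2, ?_⟩
    intro p hp hpN
    have h1 := (sift_prime_gt4 m n (by omega) hn1 f hf.1 p hp hpN).2
    rw [← pow_mul] at h1
    calc Npal n f < 10 ^ (2 * n + 2) := Npal_lt n hn1 f hfK
      _ ≤ (10 ^ (2 * m * 36)) ^ 15 := by
          rw [← pow_mul]
          apply Nat.pow_le_pow_right (by norm_num)
          omega
      _ ≤ p ^ 15 := Nat.pow_le_pow_left h1.le 15
  have hcard : (good4 m n).card ≤ S.ncard := by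
    calc (good4 m n).card = ((good4 m n).image (Npal n)).card := by
          symm
          apply Finset.card_image_of_injOn
          intro f hf f' hf' h
          unfold good4 at hf hf'
          rw [Finset.mem_coe, Finset.mem_filter] at hf hf'
          have h1 := hf.1
          have h2 := hf'.1
          unfold sift at h1 h2
          exact Npal_inj n f f' (Finset.mem_filter.mp h1).1 (Finset.mem_filter.mp h2).1 h
      _ = (((good4 m n).image (Npal n) : Finset ℕ) : Set ℕ).ncard := (Set.ncard_coe_finset _).symm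
      _ ≤ S.ncard := Set.ncard_le_ncard hsub hfin
  exact_mod_cast hcard

end Pool.Agent.Results.MP_540de1_nt.FourPrimeFactors
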