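import Mathlib
import Pool.Agent.Helper10.PalFamily

/-! An upper bound of the expected order for palindromic primes in thin families. -/

namespace Pool.Agent.Results.MP_540de1_nt.PrimeUpperNear

open Pool.Agent.Helper10 Finset

/-- `N` is a decimal palindrome with exactly `l` digits. -/
def IsPal (l N : ℕ) : Prop :=
  (Nat.digits 10 N).length = l ∧ (Nat.digits 10 N).reverse = Nat.digits 10 N

/-- The decimal digit of `N` at position `i` (position `0` is the units digit). -/
def digit (N i : ℕ) : ℕ := N / 10 ^ i % 10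

/-- Position `i` is free: its distance to the middle position `n` of a palindrome with `2 * n + 1`
digits is a positive multiple of `g` smaller than `n`. -/
def Free (g n i : ℕ) : Prop := ∃ t : ℕ, 1 ≤ t ∧ g * t < n ∧ (i = n + g * t ∨ i + g * t = n)

/-- The palindromes with `2 * n + 1` digits which have the digits of `P`, except that digits at free
positions may be larger by one. -/
def Family (g n P : ℕ) : Set ℕ :=
  {Q | IsPal (2 * n + 1) Q ∧ ∀ i, digit Q i = digit P i ∨ (Free g n i ∧ digit Q i = digit P i + 1)}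

section

variable (g n P : ℕ) (hg : 0 < g) (hn : 0 < n) (hlen : (Nat.digits 10 P).length = 2 * n + 1)
  (hrev : (Nat.digits 10 P).reverse = Nat.digits 10 P) (hcop : P.Coprime 10)
  (h8 : ∀ i, Free g n i → digit P i ≤ 8)

include h8 in
lemma f0_eq (i : ℕ) : f0 g n P i = dig P i := by
  unfold f0
  split_ifs with h
  · have := h8 i h
    change dig P i ≤ 8 at this
    omega
  · rfl

include hg hn hlen hrev hcop h8 in
lemma mem_family (ε : Finset ℕ) (hε : ε ⊆ Icc 1 ((n - 1) / g)) : mem g n P ε ∈ Family g n P := by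
  have hε' : ∀ t ∈ ε, 1 ≤ t ∧ g * t < n := free_le g n _ hn rfl ε hε
  have hlen' := mem_len g n P hg hlen hrev hcop ε hε'
  refine ⟨⟨hlen', mem_rev g n P hg hlen hrev hcop ε hε'⟩, ?_⟩
  intro i
  change dig (mem g n P ε) i = dig P i ∨ (Free g n i ∧ dig (mem g n P ε) i = dig P i + 1)
  rcases Nat.lt_or_ge i (2 * n + 1) with hi | hi
  · rw [mem_dig g n P hg hlen hrev hcop ε hε' i hi, f0_eq g n P h8]
    have h1 := inc_le_one g n hg ε hε' i
    rcases Nat.eq_zero_or_pos (inc g n ε i) with h2 | h2
    · left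
      omega
    · right
      refine ⟨inc_free g n ε hε' i (by omega), by omega⟩
  · left
    rw [dig_of_ge _ _ i hlen' hi, dig_of_ge _ _ i hlen hi]

include hg hn hlen hrev hcop h8 in
lemma family_mem (Q : ℕ) (hQ : Q ∈ Family g n P) :
    ∃ ε ⊆ Icc 1 ((n - 1) / g), Q = mem g n P ε := by
  classical
  obtain ⟨⟨hl, hr⟩, hd⟩ := hQ
  set T := (n - 1) / g with hT
  set ε := (Icc 1 T).filter (fun t => dig Q (n + g * t) = dig P (n + g * t) + 1) with hεdef
  have hεsub : ε ⊆ Icc 1 T := Finset.filter_subset _ _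
  have hε : ∀ t ∈ ε, 1 ≤ t ∧ g * t < n := free_le g n T hn hT ε hεsub
  refine ⟨ε, hεsub, ?_⟩
  have hTmem : ∀ t, 1 ≤ t → g * t < n → t ∈ Icc 1 T := by
    intro t h1 h2
    rw [Finset.mem_Icc]
    refine ⟨h1, ?_⟩
    rw [hT, Nat.le_div_iff_mul_le hg]
    have : t * g = g * t := by ring
    omega
  have hdig : ∀ i, dig Q i = dig P i ∨ (Free g n i ∧ dig Q i = dig P i + 1) := hd
  rw [eq_sum_digits Q (2 * n + 1) hl]
  unfold mem
  apply Finset.sum_congr rfl
  intro i hi
  rw [Finset.mem_range] at hi
  congr 1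
  change dig Q i = f0 g n P i + inc g n ε i
  rw [f0_eq g n P h8]
  have hQs : ∀ j < 2 * n + 1, dig Q (2 * n - j) = dig Q j := dig_symm n Q hl hr
  have hPs : ∀ j < 2 * n + 1, dig P (2 * n - j) = dig P j := dig_symm n P hlen hrev
  have hinc1 := inc_le_one g n hg ε hε i
  rcases hdig i with h | ⟨⟨t, ht1, ht2, ht3⟩, h⟩
  · have h0 : inc g n ε i = 0 := by
      unfold inc
      have e1 : ε.filter (fun t => i = n + g * t) = ∅ := by
        apply Finset.filter_false_of_mem
        intro t ht h2
        rw [hεdef, Finset.mem_filter, ← h2] at ht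
        omega
      have e2 : ε.filter (fun t => i + g * t = n) = ∅ := by
        apply Finset.filter_false_of_mem
        intro t ht h2
        rw [hεdef, Finset.mem_filter] at ht
        have h3 : n + g * t = 2 * n - i := by omega
        rw [h3, hQs i hi, hPs i hi] at ht
        omega
      rw [e1, e2]
      rfl
    omega
  · have hmem : t ∈ ε := by
      rw [hεdef, Finset.mem_filter]
      refine ⟨hTmem t ht1 ht2, ?_⟩
      rcases ht3 with h3 | h3
      · rw [← h3]
        exact h
      · have h4 : n + g * t = 2 * n - i := by omega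
        rw [h4, hQs i hi, hPs i hi]
        exact h
    have hpos : 0 < inc g n ε i := by
      unfold inc
      rcases ht3 with h3 | h3
      · have : 0 < (ε.filter (fun t => i = n + g * t)).card :=
          Finset.card_pos.mpr ⟨t, Finset.mem_filter.mpr ⟨hmem, h3⟩⟩
        omega
      · have : 0 < (ε.filter (fun t => i + g * t = n)).card :=
          Finset.card_pos.mpr ⟨t, Finset.mem_filter.mpr ⟨hmem, h3⟩⟩
        omega
    omega

include hg hn hlen hrev hcop h8 in
lemma mem_inj (ε ε' : Finset ℕ) (hε : ε ⊆ Icc 1 ((n - 1) / g)) (hε' : ε' ⊆ Icc 1 ((n - 1) / g))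
    (h : mem g n P ε = mem g n P ε') : ε = ε' := by
  have key : ∀ ε ε' : Finset ℕ, ε ⊆ Icc 1 ((n - 1) / g) → ε' ⊆ Icc 1 ((n - 1) / g) →
      mem g n P ε = mem g n P ε' → ε ⊆ ε' := by
    intro ε ε' hε hε' h t ht
    have h1 : ∀ t ∈ ε, 1 ≤ t ∧ g * t < n := free_le g n _ hn rfl ε hε
    have h2 : ∀ t ∈ ε', 1 ≤ t ∧ g * t < n := free_le g n _ hn rfl ε' hε'
    have h3 := h1 t ht
    have e1 := mem_dig g n P hg hlen hrev hcop ε h1 (n + g * t) (by omega)
    have e2 := mem_dig g n P hg hlen hrev hcop ε' h2 (n + g * t) (by omega)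
    rw [h, e2] at e1
    have e3 : 0 < inc g n ε (n + g * t) := by
      unfold inc
      have : 0 < (ε.filter (fun s => n + g * t = n + g * s)).card :=
        Finset.card_pos.mpr ⟨t, Finset.mem_filter.mpr ⟨ht, rfl⟩⟩
      omega
    have e4 : 0 < inc g n ε' (n + g * t) := by omega
    unfold inc at e4
    have e5 : ε'.filter (fun s => n + g * t + g * s = n) = ∅ := by
      apply Finset.filter_false_of_mem
      intro s hs h6
      have : 0 < g * t := Nat.mul_pos hg h3.1
      omega
    rw [e5, Finset.card_empty, add_zero, Finset.card_pos] at e4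
    obtain ⟨s, hs⟩ := e4
    rw [Finset.mem_filter] at hs
    have : g * t = g * s := by omega
    have : t = s := Nat.eq_of_mul_eq_mul_left hg this
    rw [this]
    exact hs.1
  exact Finset.Subset.antisymm (key ε ε' hε hε' h) (key ε' ε hε' hε h.symm)

end

/-- **Upper bound for palindromic primes in thin families.** For every `g ≥ 1` and all large `n`:
let `P` be a palindrome with `2 * n + 1` digits, coprime to `10`, with digits at most `8` at the free
positions. The family of the palindromes that arise from `P` by increasing digits at free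
positions by one has exactly `2 ^ ⌊(n - 1) / g⌋` members, and at most `200 * g * 2 ^ ⌊(n - 1) / g⌋ / n`
of them are prime. -/
theorem result (g : ℕ) (hg : 0 < g) : ∃ n₀ : ℕ, ∀ n : ℕ, n₀ ≤ n → ∀ P : ℕ,
    IsPal (2 * n + 1) P → P.Coprime 10 → (∀ i, Free g n i → digit P i ≤ 8) →
    (Family g n P).ncard = 2 ^ ((n - 1) / g) ∧
      {Q ∈ Family g n P | Q.Prime}.ncard * n ≤ 200 * g * 2 ^ ((n - 1) / g) := by
  classical
  obtain ⟨T0, hT0⟩ := core_upper g hg
  refine ⟨g * (T0 + 2) + 1, ?_⟩
  rintro n hn P ⟨hlen, hrev⟩ hcop h8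
  set T := (n - 1) / g with hT
  have hn0 : 0 < n := by omega
  have hTn : g * T ≤ n - 1 := Nat.mul_div_le _ _
  have hT0T : T0 ≤ T := by
    rw [hT, Nat.le_div_iff_mul_le hg]
    have e1 : g * (T0 + 2) = T0 * g + 2 * g := by ring
    omega
  have hTlow : n < g * T + g + 1 := by
    have h1 := Nat.lt_div_mul_add (a := n - 1) hg
    rw [← hT] at h1
    have e1 : T * g = g * T := by ring
    omega
  have hn2 : n ≤ 2 * g * T := by
    have e1 : g * (T0 + 2) = g * T0 + 2 * g := by ring
    have e2 : 2 * g * T = 2 * (g * T) := by ring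
    omega
  have himage : Family g n P = ((Icc 1 T).powerset.image (mem g n P) : Finset ℕ) := by
    ext Q
    rw [Finset.mem_coe, Finset.mem_image]
    constructor
    · intro hQ
      obtain ⟨ε, hε, rfl⟩ := family_mem g n P hg hn0 hlen hrev hcop h8 Q hQ
      exact ⟨ε, Finset.mem_powerset.mpr hε, rfl⟩
    · rintro ⟨ε, hε, rfl⟩
      exact mem_family g n P hg hn0 hlen hrev hcop h8 ε (Finset.mem_powerset.mp hε)
  have hinj : Set.InjOn (mem g n P) ((Icc 1 T).powerset : Finset (Finset ℕ)) := by
    intro ε hε ε' hε' h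
    rw [Finset.mem_coe, Finset.mem_powerset] at hε hε'
    exact mem_inj g n P hg hn0 hlen hrev hcop h8 ε ε' hε hε' h
  refine ⟨?_, ?_⟩
  · rw [himage, Set.ncard_coe_finset, Finset.card_image_of_injOn hinj, Finset.card_powerset,
      Nat.card_Icc, Nat.add_sub_cancel]
  -- primes
  set E' := (Icc 1 T).powerset.filter (fun ε => (mem g n P ε).Prime) with hE'
  have hprimes : {Q ∈ Family g n P | Q.Prime} = (E'.image (mem g n P) : Finset ℕ) := by
    ext Q
    rw [Finset.mem_coe, Finset.mem_image, Set.mem_ofPred_eq, himage, Finset.mem_coe,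
      Finset.mem_image]
    constructor
    · rintro ⟨⟨ε, hε, rfl⟩, hp⟩
      exact ⟨ε, Finset.mem_filter.mpr ⟨hε, hp⟩, rfl⟩
    · rintro ⟨ε, hε, rfl⟩
      rw [hE', Finset.mem_filter] at hε
      exact ⟨⟨ε, hε.1, rfl⟩, hε.2⟩
  have hcard : {Q ∈ Family g n P | Q.Prime}.ncard = E'.card := by
    rw [hprimes, Set.ncard_coe_finset, Finset.card_image_of_injOn]
    exact hinj.mono (by
      intro x hx
      exact Finset.filter_subset _ _ hx)
  rw [hcard]
  have hmemN : ∀ ε ⊆ Icc 1 T, N0 g n P + MM (10 ^ (n - g * T)) (10 ^ g) T ε = mem g n P ε := by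
    intro ε hε
    rw [MM_family g n T (by omega) ε hε, mem_eq g n P ε (free_le g n T hn0 hT ε hε)]
  have hup := hT0 T hT0T (10 ^ (n - g * T)) (N0 g n P)
    (fun q hq => Nat.Coprime.pow_right _ hq) E' (Finset.filter_subset _ _) (by
      intro ε hε d hd1 hd2 hd3
      rw [hE', Finset.mem_filter, Finset.mem_powerset] at hε
      rw [hmemN ε hε.1] at hd3
      rcases (Nat.dvd_prime hε.2).mp hd3 with h | h
      · exact h
      · exfalso
        have hε' := free_le g n T hn0 hT ε hε.1
        have hl := mem_len g n P hg hlen hrev hcop ε hε'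
        have h1 : 10 ^ (2 * n) ≤ mem g n P ε := by
          by_contra hcon
          push Not at hcon
          rw [← Nat.digits_length_le_iff (by norm_num), hl] at hcon
          omega
        have h2 : T ≤ n := by
          have : T ≤ n - 1 := Nat.div_le_self _ _
          omega
        have h3 : 2 ^ (T / 9) < 10 ^ (2 * n) := by
          calc 2 ^ (T / 9) ≤ 2 ^ (2 * n) := Nat.pow_le_pow_right (by norm_num) (by omega)
            _ < 10 ^ (2 * n) := Nat.pow_lt_pow_left (by norm_num) (by omega)
        omega)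
  have hTpos : 0 < T := by
    by_contra h
    have : T = 0 := by omega
    rw [this] at hn2
    omega
  have hTR : (0 : ℝ) < T := by exact_mod_cast hTpos
  rw [le_div_iff₀ hTR] at hup
  have hup' : E'.card * T ≤ 100 * 2 ^ T := by exact_mod_cast hup
  calc E'.card * n ≤ E'.card * (2 * g * T) := Nat.mul_le_mul_left _ hn2
    _ = 2 * g * (E'.card * T) := by ring
    _ ≤ 2 * g * (100 * 2 ^ T) := Nat.mul_le_mul_left _ hup'
    _ = 200 * g * 2 ^ T := by ring

end Pool.Agent.Results.MP_540de1_nt.PrimeUpperNear
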